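import Pool.Agent.Helper51.GPC.Dual

namespace Pool.Agent.Results.MP_480c30_co.GoodPair

open Pool.Agent.Helper51.GPC

/-- Let `a, b` be incomparable elements of a finite poset such that every element above `a` is
above `b`, the elements that are below `b` but not below `a` form a chain, and `b` is before `a`
in at most half of the linear extensions, or such that the dual condition holds. Then the poset
satisfies the golden partition conjecture. -/
theorem result (α : Type) [Fintype α] [PartialOrder α] (a b : α) (hab : ¬ a ≤ b)
    (hba : ¬ b ≤ a)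
    (h : ((∀ e, a < e → b < e) ∧
        (∀ e e', e < b → ¬ e < a → e' < b → ¬ e' < a → e ≤ e' ∨ e' ≤ e) ∧
        2 * lt b a ≤ total α) ∨
      ((∀ e, e < a → e < b) ∧
        (∀ e e', b < e → ¬ a < e → b < e' → ¬ a < e' → e ≤ e' ∨ e' ≤ e) ∧
        2 * lt a b ≤ total α)) : Golden α := by
  rcases h with ⟨h1, h2, h3⟩ | ⟨h1, h2, h3⟩
  · exact golden_of_good' hab hba h1 h2 h3
  · exact golden_of_good_dual hab hba h1 h2 h3

end Pool.Agent.Results.MP_480c30_co.GoodPair
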